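import Mathlib
import Pool.Agent.Lib.helper23.VorE

set_option autoImplicit false

namespace Pool.Agent.Results.MP_20f07a_co.Main

/-- the Voronoi cell of `v` with respect to the sites `T` -/
def cell {V : Type} (G : SimpleGraph V) (T : Finset V) (v : V) : Set V :=
  {u | ∀ w ∈ T, G.dist u v ≤ G.dist u w}

/-- the number of sites with an infinite cell -/
noncomputable def infCells {V : Type} (G : SimpleGraph V) (T : Finset V) : ℕ :=
  {v | v ∈ T ∧ (cell G T v).Infinite}.ncard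

/-- the survival number -/
noncomputable def surv {V : Type} (G : SimpleGraph V) : ℕ∞ :=
  ⨆ (n : ℕ) (_ : 1 ≤ n ∧ ∃ d : ℕ, ∀ T : Finset V, n ≤ T.card →
    (∀ v ∈ T, ∀ w ∈ T, v ≠ w → d < G.dist v w) → n ≤ infCells G T), (n : ℕ∞)

open Pool.Agent.Lib.helper23.Vor in
theorem result : ∃ (V : Type) (G : SimpleGraph V), Infinite V ∧ G.Connected ∧
    (∀ v, (G.neighborSet v).Finite) ∧ (∀ u v, ∃ φ : G ≃g G, φ u = v) ∧ surv G = 2 ∧
    ∀ (v : V) (a b : ℕ), ∃ r : ℕ, a * r + b < {u | G.dist v u ≤ r}.ncard :=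
  ⟨X, H, inferInstance, H_dist.1, H_fin, H_trans, H_surv, H_growth⟩

end Pool.Agent.Results.MP_20f07a_co.Main
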